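import Pool.Agent.PST.StmtsK1

/-!
# Squad PST, row HON: 1-cocycles of `V / W` in the centraliser of `W`
-/

set_option autoImplicit false

open scoped BigOperators

noncomputable section

namespace Pool.Agent.PST.H44

open Pool.Agent.PFC (tw IsTv)
open Pool.Agent.PFD.D2b (FrR)
open Pool.Agent.PSS
open Pool.Agent.PST

/-- cocycles with values in functions on a `V`-set -/
theorem coc (exa : ExaStmt) (ℓ : ℕ) [Fact ℓ.Prime] (F V Ω : Type) [Field F] [CommGroup V]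
    [Finite V] [MulAction V Ω] (W : Subgroup V) (hW : ∀ v : V, v ^ ℓ ∈ W) (f : Ω → V → F)
    (h1 : ∀ ω u v, f ω (u * v) = f ω u + f (u⁻¹ • ω) v) (h2 : ∀ ω, ∀ w ∈ W, f ω w = 0) :
    ∃ (h : MulAction.orbitRel.Quotient V Ω → V → F) (r : Ω → F),
      (∀ o u v, h o (u * v) = h o u + h o v) ∧ (∀ o, ∀ w ∈ W, h o w = 0) ∧
      ∀ ω v, f ω v = h (Quotient.mk _ ω) v + (r (v⁻¹ • ω) - r ω) := by
  have h3 : ∀ ω u, ∀ w ∈ W, f (w⁻¹ • ω) u = f ω u := by
    intro ω u w hw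
    have e1 := h1 ω w u
    have e2 := h1 ω u w
    rw [h2 ω w hw, zero_add] at e1
    rw [h2 _ w hw, add_zero] at e2
    rw [← e1, mul_comm, e2]
  have h4 : ∀ ω₀ : Ω, ∀ s ∈ MulAction.stabilizer V ω₀ ⊔ W, ∀ u, f (s⁻¹ • ω₀) u = f ω₀ u := by
    intro ω₀ s hs u
    obtain ⟨t, ht, w, hw, rfl⟩ := Subgroup.mem_sup.1 hs
    have e1 : t⁻¹ • ω₀ = ω₀ := (MulAction.stabilizer V ω₀).inv_mem ht
    rw [mul_inv_rev, mul_smul, e1]
    exact h3 ω₀ u w hw
  have h5 : ∀ o : MulAction.orbitRel.Quotient V Ω, ∃ h' : V → F,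
      (∀ u v, h' (u * v) = h' u + h' v) ∧
      ∀ t ∈ MulAction.stabilizer V o.out ⊔ W, h' t = f o.out t := by
    intro o
    apply exa ℓ F V W (MulAction.stabilizer V o.out ⊔ W) (f o.out) le_sup_right hW
    · intro s hs t _
      rw [h1, h4 _ s hs]
    · exact h2 o.out
  choose h h6 h7 using h5
  have h8 : ∀ ω : Ω, ∃ g : V, g • (Quotient.mk (MulAction.orbitRel V Ω) ω).out = ω := by
    intro ω
    have e1 : (MulAction.orbitRel V Ω).r ω (Quotient.mk (MulAction.orbitRel V Ω) ω).out :=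
      (MulAction.orbitRel V Ω).symm (Quotient.mk_out (s := MulAction.orbitRel V Ω) ω)
    exact (MulAction.orbitRel_apply.1 e1)
  choose g hg using h8
  refine ⟨h, fun ω => f (Quotient.mk (MulAction.orbitRel V Ω) ω).out (g ω)⁻¹ -
    h (Quotient.mk _ ω) (g ω)⁻¹, h6, ?_, ?_⟩
  · intro o w hw
    rw [h7 o w (Subgroup.mem_sup_right hw)]
    exact h2 _ w hw
  · intro ω v
    have e0 : (Quotient.mk (MulAction.orbitRel V Ω) (v⁻¹ • ω)) =
        Quotient.mk (MulAction.orbitRel V Ω) ω :=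
      Quotient.sound (MulAction.orbitRel_apply.2 ⟨v⁻¹, rfl⟩)
    have e3 : g (v⁻¹ • ω) • (Quotient.mk (MulAction.orbitRel V Ω) ω).out = v⁻¹ • ω := by
      have e4 := hg (v⁻¹ • ω)
      rw [e0] at e4
      exact e4
    have e5 := hg ω
    show f ω v = h (Quotient.mk _ ω) v +
      ((f (Quotient.mk (MulAction.orbitRel V Ω) (v⁻¹ • ω)).out (g (v⁻¹ • ω))⁻¹ -
        h (Quotient.mk _ (v⁻¹ • ω)) (g (v⁻¹ • ω))⁻¹) -
      (f (Quotient.mk (MulAction.orbitRel V Ω) ω).out (g ω)⁻¹ - h (Quotient.mk _ ω) (g ω)⁻¹))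
    rw [e0]
    generalize Quotient.mk (MulAction.orbitRel V Ω) ω = o at *
    generalize g ω = a at *
    generalize g (v⁻¹ • ω) = b at *
    -- `b⁻¹ = t * (a⁻¹ * v)`
    have ht : b⁻¹ * (v⁻¹ * a) ∈ MulAction.stabilizer V o.out := by
      rw [MulAction.mem_stabilizer_iff, mul_smul, mul_smul, e5, ← e3, inv_smul_smul]
    have e6 : b⁻¹ = (b⁻¹ * (v⁻¹ * a)) * (a⁻¹ * v) := by group
    have e7 : (b⁻¹ * (v⁻¹ * a))⁻¹ • o.out = o.out :=
      (MulAction.stabilizer V o.out).inv_mem ht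
    have e8 : f o.out b⁻¹ = f o.out (b⁻¹ * (v⁻¹ * a)) + f o.out (a⁻¹ * v) := by
      conv_lhs => rw [e6]
      rw [h1, e7]
    have e9 : h o b⁻¹ = h o (b⁻¹ * (v⁻¹ * a)) + h o (a⁻¹ * v) := by
      conv_lhs => rw [e6]
      rw [h6]
    have e10 := h7 o _ (Subgroup.mem_sup_left (T := W) ht)
    have e11 : f o.out (a⁻¹ * v) = f o.out a⁻¹ + f ω v := by
      rw [h1, inv_inv, e5]
    rw [e8, e9, e10, e11, h6]
    ring

theorem hon (exa : ExaStmt) : HonStmt := by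
  intro ℓ hℓ F V E A _ _ _ _ _ _ φ α W r la q hper hW hspn hq hqW
  obtain ⟨Ω, _, _, b, c, ⟨hb, hc, hbc⟩, _⟩ := hper
  let _ : MulAction V Ω :=
    MulAction.compHom Ω ((MonoidHom.id V).prod (MonoidHom.id V))
  have hsm : ∀ (v : V) (ω : Ω), v • ω = ((v, v) : V × V) • ω := fun _ _ => rfl
  have hbv : ∀ (v : V) (ω : Ω), b (v • ω) = α v * b ω * α v⁻¹ := by
    intro v ω
    rw [hsm, hb]
    show α v * (b ω * α v⁻¹) = _
    rw [mul_assoc]
  have hcv : ∀ (v : V) (ω : Ω) (a : A), c ω (α v * a * α v⁻¹) = c (v⁻¹ • ω) a := by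
    intro v ω a
    have e1 := hc (v, v) (v⁻¹ • ω) a
    have e2 : ((v, v) : V × V) • (v⁻¹ • ω) = ω := by
      rw [← hsm, smul_inv_smul]
    rw [e2] at e1
    rw [← e1]
    show _ = c ω (α v * (a * α v⁻¹))
    rw [mul_assoc]
  obtain ⟨h, s, h6, h7, h8⟩ := coc exa ℓ F V Ω W hW (fun ω v => c ω (q v))
    (by
      intro ω u v
      show c ω (q (u * v)) = c ω (q u) + c (u⁻¹ • ω) (q v)
      rw [hq, map_add, hcv])
    (by
      intro ω w hw
      show c ω (q w) = 0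
      rw [hqW w hw, map_zero])
  have h9 : ∀ o, ∃ d : Fin r → F, ∀ v, h o v = ∑ l, d l * la l v :=
    fun o => hspn (h o) (h6 o) (h7 o)
  choose d hd using h9
  -- sums over the frame
  have hmk : ∀ (v : V) (ω : Ω), (Quotient.mk (MulAction.orbitRel V Ω) (v • ω)) =
      Quotient.mk (MulAction.orbitRel V Ω) ω :=
    fun v ω => Quotient.sound (MulAction.orbitRel_apply.2 ⟨v, rfl⟩)
  have hsum : ∀ (v : V) (z : Ω → F), α v * (∑ ω, z ω • b ω) * α v⁻¹ =
      ∑ ω, z (v⁻¹ • ω) • b ω := by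
    intro v z
    rw [Finset.mul_sum, Finset.sum_mul]
    have e1 : ∀ ω, α v * (z ω • b ω) * α v⁻¹ = z ω • b (v • ω) := by
      intro ω
      rw [hbv, mul_smul_comm, smul_mul_assoc]
    rw [Finset.sum_congr rfl (fun ω _ => e1 ω)]
    rw [← Equiv.sum_comp (MulAction.toPerm v) (fun ω => z (v⁻¹ • ω) • b ω)]
    refine Finset.sum_congr rfl fun ω _ => ?_
    rw [MulAction.toPerm_apply, inv_smul_smul]
  refine ⟨fun l => ∑ ω, d (Quotient.mk _ ω) l • b ω, ∑ ω, s ω • b ω, ?_, ?_, ?_⟩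
  · intro l v _
    show α v * ((∑ ω, d (Quotient.mk _ ω) l • b ω) * α v⁻¹) = _
    rw [← mul_assoc, hsum v (fun ω => d (Quotient.mk _ ω) l)]
    refine Finset.sum_congr rfl fun ω _ => ?_
    show d (Quotient.mk _ (v⁻¹ • ω)) l • b ω = _
    rw [hmk]
  · intro w hw
    have e1 := hsum w s
    have e2 : ∑ ω, s (w⁻¹ • ω) • b ω = ∑ ω, s ω • b ω := by
      refine Finset.sum_congr rfl fun ω _ => ?_
      have e3 := h8 ω w
      rw [h7 _ w hw, hqW w hw] at e3
      have e4 : s (w⁻¹ • ω) = s ω := by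
        have e5 : (c ω) (0 : A) = 0 := map_zero _
        rw [e5] at e3
        linear_combination -e3
      rw [e4]
    rw [e2] at e1
    have e6 : α w⁻¹ * α w = 1 := by rw [← map_mul, inv_mul_cancel, map_one]
    calc α w * (∑ ω, s ω • b ω) = α w * (∑ ω, s ω • b ω) * (α w⁻¹ * α w) := by
          rw [e6, mul_one]
      _ = α w * (∑ ω, s ω • b ω) * α w⁻¹ * α w := by rw [← mul_assoc]
      _ = _ := by rw [e1]
  · intro v
    rw [hsum v s]
    have e1 : ∑ l, la l v • (∑ ω, d (Quotient.mk _ ω) l • b ω) =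
        ∑ ω, h (Quotient.mk _ ω) v • b ω := by
      simp only [Finset.smul_sum]
      rw [Finset.sum_comm]
      refine Finset.sum_congr rfl fun ω _ => ?_
      rw [hd, Finset.sum_smul]
      refine Finset.sum_congr rfl fun l _ => ?_
      rw [smul_smul, mul_comm]
    rw [e1, ← Finset.sum_sub_distrib, ← Finset.sum_add_distrib]
    conv_lhs => rw [← hbc (q v)]
    refine Finset.sum_congr rfl fun ω _ => ?_
    have e2 : c ω (q v) = h (Quotient.mk _ ω) v + (s (v⁻¹ • ω) - s ω) := h8 ω v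
    rw [e2, add_smul, sub_smul]

end Pool.Agent.PST.H44
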