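import Pool.Agent.PST.StmtsGR

/-!
# Squad PST, row CAB: an abelian inertial quotient
-/

set_option autoImplicit false

open scoped BigOperators

noncomputable section

namespace Pool.Agent.PST.H44

open Pool.Agent.Helper51_AWC Pool.Agent.Helper79_WRA Pool.Agent.PP Pool.Agent.PP.KF
open Pool.Agent.PP.K9 Pool.Agent.PP.K9.H97 Pool.Agent.PP.H75 Pool.Agent.PP.T3 Pool.Agent.PP.T2
open Pool.Agent.PFD (Ei)
open Pool.Agent.PSS

attribute [local instance] Ideal.Quotient.field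

theorem cab (eca : EcaStmt) : CabStmt := by
  intro ℓ hℓ M _ hM hℓ2 G _ _ e V γ hL hV hcom
  have hT : Tg V γ ≤ Subgroup.normalizer (V : Set G) := inf_le_left
  have hab : ∀ a b : V, a * b = b * a := fun a b => Subtype.ext (hL.ab a a.2 b b.2)
  have hst : ∀ a ∈ Ei V γ, ∀ u ∈ (⊤ : Subgroup V), a u ∈ (⊤ : Subgroup V) :=
    fun _ _ _ _ => trivial
  have hEc : ∀ a ∈ Ei V γ, ∀ b ∈ Ei V γ, ∀ v, a (b v) = b (a v) := by
    rintro _ ⟨⟨s, hsn⟩, hs, rfl⟩ _ ⟨⟨t, htn⟩, ht, rfl⟩ v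
    have h1 := hcom s (Subgroup.mem_subgroupOf.1 hs) t (Subgroup.mem_subgroupOf.1 ht)
    apply Subtype.ext
    show s * (t * (v : G) * t⁻¹) * s⁻¹ = t * (s * (v : G) * s⁻¹) * t⁻¹
    have h2 : s * (v : G) * s⁻¹ ∈ V := (Subgroup.mem_normalizer_iff.1 hsn (v : G)).1 v.2
    have h3 : t * (s * (v : G) * s⁻¹) * t⁻¹ ∈ V :=
      (Subgroup.mem_normalizer_iff.1 htn (s * (v : G) * s⁻¹)).1 h2
    have h4 := Subgroup.mem_centralizer_iff.1 h1 _ h3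
    have h5 : s * (t * (v : G) * t⁻¹) * s⁻¹ =
        (s * t * s⁻¹ * t⁻¹) * (t * (s * (v : G) * s⁻¹) * t⁻¹) * (s * t * s⁻¹ * t⁻¹)⁻¹ := by
      group
    rw [h5, ← h4, mul_inv_cancel_right]
  have hne : (⊤ : Subgroup V) ≠ ⊥ := by
    intro h1
    apply hV
    rw [eq_bot_iff]
    intro x hx
    have h2 : (⟨x, hx⟩ : V) ∈ (⊤ : Subgroup V) := trivial
    rw [h1, Subgroup.mem_bot] at h2
    rw [Subgroup.mem_bot]
    exact congrArg Subtype.val h2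
  obtain ⟨W, U, X, h1, h2⟩ := eca ℓ V (Ei V γ) Fact.out hℓ2 hL.tp.1 hab hEc ⊤ hne hst
  exact ⟨W, hab, h1, U, X, h2⟩

end Pool.Agent.PST.H44
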